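import Pool.Agent.H34.N6V.Targets
import Pool.Agent.H41.N6E.PMU
import Pool.Agent.H5.N6E.ERED

/-!
# N6, block V: row GLU (gluing the residues)
-/

set_option autoImplicit false

open Polynomial NumberField IsDedekindDomain Pool.Agent.H32.QC Pool.Agent.H34.N6
open Pool.Agent.H13.DEV Pool.Agent.H34.N6V

namespace Pool.Agent.H11.N6V

open Pool.Agent.H41.N6E

section

variable {k : Type} [Field k] [NumberField k]

theorem glu_min {α : Type} (S : Finset α) (f : α → ℝ) (hf : ∀ a ∈ S, 0 < f a) :
    ∃ ε : ℝ, 0 < ε ∧ ∀ a ∈ S, ε ≤ f a := by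
  classical
  induction S using Finset.induction_on with
  | empty => exact ⟨1, one_pos, fun a ha => by simp at ha⟩
  | insert a s _ ih =>
    obtain ⟨ε, h1, h2⟩ := ih fun b hb => hf b (Finset.mem_insert_of_mem hb)
    refine ⟨min ε (f a), lt_min h1 (hf a (Finset.mem_insert_self _ _)), fun b hb => ?_⟩
    rcases Finset.mem_insert.1 hb with rfl | hb
    · exact min_le_right _ _
    · exact (min_le_left _ _).trans (h2 b hb)

/-- linear maps preserve smallness -/
theorem small_lin (v : Pl k) (L : k[X] →ₗ[k] k[X]) (n d : ℕ) (hL : ∀ D, (L D).natDegree ≤ d)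
    (ε : ℝ) (hε : 0 < ε) : ∃ ε' : ℝ, 0 < ε' ∧ ∀ D : k[X], D.natDegree ≤ n →
      (∀ i, av v (D.coeff i) < ε') → ∀ i, av v ((L D).coeff i) < ε := by
  obtain ⟨A, hA⟩ : ∃ A, A = ∑ a ∈ Finset.range (n + 1), ∑ m ∈ Finset.range (d + 1),
      av v ((L (X ^ a)).coeff m) := ⟨_, rfl⟩
  have hA0 : 0 ≤ A := by
    rw [hA]
    exact Finset.sum_nonneg fun a _ => Finset.sum_nonneg fun m _ => av_nonneg v _
  refine ⟨ε / (1 + A), by positivity, fun D hD hs i => ?_⟩
  rcases Nat.lt_or_ge d i with hi | hi
  · rw [coeff_eq_zero_of_natDegree_lt ((hL D).trans_lt hi), av_zero]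
    exact hε
  have e1 : (L D).coeff i = ∑ a ∈ Finset.range (n + 1), D.coeff a * (L (X ^ a)).coeff i := by
    conv_lhs => rw [D.as_sum_range_C_mul_X_pow' (Nat.lt_succ_of_le hD)]
    rw [map_sum, finsetSum_coeff]
    refine Finset.sum_congr rfl fun a _ => ?_
    rw [← smul_eq_C_mul, map_smul, coeff_smul, smul_eq_mul]
  rw [e1]
  calc av v (∑ a ∈ Finset.range (n + 1), D.coeff a * (L (X ^ a)).coeff i) ≤
      ∑ a ∈ Finset.range (n + 1), ε / (1 + A) * ∑ m ∈ Finset.range (d + 1),
        av v ((L (X ^ a)).coeff m) := by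
        refine (av_sum v _ _).trans (Finset.sum_le_sum fun a _ => ?_)
        rw [av_mul]
        have h1 : av v ((L (X ^ a)).coeff i) ≤ ∑ m ∈ Finset.range (d + 1),
            av v ((L (X ^ a)).coeff m) :=
          Finset.single_le_sum (f := fun m => av v ((L (X ^ a)).coeff m))
            (fun m _ => av_nonneg v _) (Finset.mem_range.2 (Nat.lt_succ_of_le hi))
        exact mul_le_mul (hs a).le h1 (av_nonneg v _) (by positivity)
    _ = A * (ε / (1 + A)) := by rw [← Finset.mul_sum, ← hA, mul_comm]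
    _ < ε := by
        rw [mul_div_assoc', div_lt_iff₀ (by positivity)]
        nlinarith

theorem int_add' {v : FPl k} {A B : k[X]} (hA : Int v A) (hB : Int v B) : Int v (A + B) := by
  intro i
  rw [coeff_add, map_add]
  exact (IsUltrametricDist.norm_add_le_max _ _).trans (max_le (hA i) (hB i))

theorem int_mul' {v : FPl k} {A B : k[X]} (hA : Int v A) (hB : Int v B) : Int v (A * B) := by
  intro i
  rw [coeff_mul, map_sum]
  refine IsUltrametricDist.norm_sum_le_of_forall_le_of_nonneg zero_le_one fun x _ => ?_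
  rw [map_mul, norm_mul]
  exact mul_le_one₀ (hA _) (norm_nonneg _) (hB _)

theorem int_zero' {v : FPl k} : Int v (0 : k[X]) := by
  intro i
  simp

theorem int_one' {v : FPl k} : Int v (1 : k[X]) := by
  intro i
  rw [coeff_one]
  split_ifs <;> simp

theorem int_sum' {v : FPl k} {ι : Type} (s : Finset ι) (f : ι → k[X])
    (h : ∀ j ∈ s, Int v (f j)) : Int v (∑ j ∈ s, f j) := by
  classical
  induction s using Finset.induction_on with
  | empty => exact int_zero'
  | insert a s ha ih =>
    rw [Finset.sum_insert ha]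
    exact int_add' (h a (Finset.mem_insert_self _ _))
      (ih fun j hj => h j (Finset.mem_insert_of_mem hj))

theorem int_prod' {v : FPl k} {ι : Type} (s : Finset ι) (f : ι → k[X])
    (h : ∀ j ∈ s, Int v (f j)) : Int v (∏ j ∈ s, f j) := by
  classical
  induction s using Finset.induction_on with
  | empty => exact int_one'
  | insert a s ha ih =>
    rw [Finset.prod_insert ha]
    exact int_mul' (h a (Finset.mem_insert_self _ _))
      (ih fun j hj => h j (Finset.mem_insert_of_mem hj))

theorem int_mod {v : FPl k} {A Q : k[X]} (hA : A.Monic) (hAI : Int v A) (hQ : Int v Q) :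
    Int v (Q %ₘ A) := by
  obtain ⟨C, B, -, hB, he, hd⟩ := Pool.Agent.H5.N6E.int_div v A Q hA hAI hQ
  have h := (div_modByMonic_unique (f := Q) C B hA ⟨by rw [he, add_comm], hd⟩).2
  rw [h]
  exact hB

end

theorem pf_GLU (hHPO : T_HPO) (hPMU : T_PMU) : T_GLU := by
  classical
  intro k ι _ _ _ P E S N p G ε hF hI hN hp hoff hG
  set Pt : k[X] := ∏ j, P j with hPt
  have hPm : Pt.Monic := monic_prod_of_monic _ _ fun j _ => hF.mon j
  set n := N - Pt.natDegree with hn
  set H : Pl k → k[X] := fun v => G v /ₘ Pt with hH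
  -- congruences
  have hcop : Set.Pairwise (↑(Finset.univ : Finset ι) : Set ι) (Function.onFun IsCoprime P) := by
    intro i _ j _ hij
    obtain ⟨a, ha⟩ := hF.zero i j hij
    obtain ⟨b, hb⟩ := hF.one j
    refine ⟨a, -b, ?_⟩
    linear_combination -ha + hb
  have hsum : ∀ (Q : ι → k[X]) (j : ι), P j ∣ (∑ i, Q i * E i) - Q j := by
    intro Q j
    have h1 : (∑ i, Q i * E i) - Q j = (∑ i ∈ Finset.univ.erase j, Q i * E i) +
        Q j * (E j - 1) := by
      rw [← Finset.add_sum_erase _ _ (Finset.mem_univ j)]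
      ring
    rw [h1]
    refine dvd_add (Finset.dvd_sum fun i hi => ?_) ((hF.one j).mul_left _)
    exact (hF.zero j i (Finset.ne_of_mem_erase hi).symm).mul_left _
  have hmod : ∀ g : k[X], g %ₘ Pt = (∑ j, (g %ₘ P j) * E j) %ₘ Pt := by
    intro g
    have h1 : Pt ∣ g - ∑ j, (g %ₘ P j) * E j := by
      refine Finset.prod_dvd_of_coprime hcop fun i _ => ?_
      have h2 := hsum (fun j => g %ₘ P j) i
      have h3 : P i ∣ g - g %ₘ P i := ⟨g /ₘ P i, by
        have := modByMonic_add_div g (P i)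
        linear_combination -this⟩
      have h4 : g - ∑ j, (g %ₘ P j) * E j = (g - g %ₘ P i) -
          ((∑ j, (g %ₘ P j) * E j) - g %ₘ P i) := by ring
      rw [h4]
      exact dvd_sub h3 h2
    have h5 := (modByMonic_eq_zero_iff_dvd hPm).2 h1
    rw [sub_modByMonic] at h5
    exact sub_eq_zero.1 h5
  have hdeg0 : ∀ g : k[X], (g %ₘ Pt).natDegree ≤ Pt.natDegree :=
    fun g => natDegree_modByMonic_le g hPm
  -- the constants
  set c : ℝ := (Fintype.card ι : ℝ) + 1 with hc
  have hc0 : 0 < c := by positivity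
  have hL : ∀ (v : Pl k) (j : ι), v ∈ S → ∃ ε' : ℝ, 0 < ε' ∧ ∀ D : k[X],
      D.natDegree ≤ (P j).natDegree → (∀ i, av v (D.coeff i) < ε') →
      ∀ i, av v (((D * E j) %ₘ Pt).coeff i) < ε v / (2 * c) := by
    intro v j hv
    have hε := (hG v hv).1
    exact small_lin v ((modByMonicHom Pt).comp (LinearMap.mulRight k (E j))) (P j).natDegree
      Pt.natDegree (fun D => hdeg0 _) (ε v / (2 * c)) (by positivity)
  have hM : ∀ v : Pl k, v ∈ S → ∃ ε' : ℝ, 0 < ε' ∧ ∀ Q : k[X], Q.natDegree ≤ n →
      Close v ε' Q 0 → Close v (ε v / 2) (Pt * Q) 0 := by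
    intro v hv
    exact hPMU k v Pt n (ε v / 2) (by have := (hG v hv).1; positivity)
  choose! eL hL1 hL2 using hL
  choose! eM hM1 hM2 using hM
  obtain ⟨ε₁, hε₁, hε₁'⟩ := glu_min S eM hM1
  obtain ⟨ε₂, hε₂, hε₂'⟩ := glu_min (S ×ˢ (Finset.univ : Finset ι)) (fun x => eL x.1 x.2)
    (fun x hx => hL1 x.1 x.2 (Finset.mem_product.1 hx).1)
  have hHm : ∀ v ∈ S, (H v).Monic ∧ (H v).natDegree = n := by
    intro v hv
    obtain ⟨-, h1, h2⟩ := hG v hv
    have h3 : (H v).natDegree = n := by
      rw [hH, hn, ← h2]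
      exact natDegree_divByMonic (G v) hPm
    refine ⟨?_, h3⟩
    have h4 : Pt.degree ≤ (G v).degree := by
      rw [degree_eq_natDegree hPm.ne_zero, degree_eq_natDegree h1.ne_zero, h2]
      exact_mod_cast hN
    have h5 := leadingCoeff_divByMonic_of_monic hPm h4
    rw [Monic, hH]
    simp only
    rw [h5]
    exact h1
  obtain ⟨H', hH1, hH2, hH3, hH4⟩ := hHPO k S p n H ε₁ hp hoff hHm hε₁
  refine ⟨ε₂, hε₂, fun Q hQd hQc hQi => ?_⟩
  set G0 : k[X] := (∑ j, Q j * E j) %ₘ Pt with hG0
  have hG0d : G0.degree < Pt.degree := degree_modByMonic_lt _ hPm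
  have hPH : (Pt * H').Monic := hPm.mul hH1
  have hPHd : (Pt * H').natDegree = N := by
    rw [hPm.natDegree_mul hH1, hH2, hn]
    omega
  have hlt : G0.degree < (Pt * H').degree := by
    refine hG0d.trans_le ?_
    rw [degree_eq_natDegree hPm.ne_zero, degree_eq_natDegree hPH.ne_zero, hPHd]
    exact_mod_cast hN
  refine ⟨G0 + Pt * H', hPH.add_of_right hlt, ?_, ?_, ?_, ?_⟩
  · have h1 : (G0 + Pt * H').degree = (Pt * H').degree := degree_add_eq_right_of_degree_lt hlt
    rw [natDegree_eq_natDegree h1, hPHd]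
  · intro v hv i
    obtain ⟨hε, hGm, hGd⟩ := hG v hv
    have h1 : G0 + Pt * H' - G v = (∑ j, ((Q j - G v %ₘ P j) * E j) %ₘ Pt) +
        Pt * (H' - H v) := by
      have h2 : (∑ j, ((Q j - G v %ₘ P j) * E j) %ₘ Pt) = G0 - G v %ₘ Pt := by
        rw [hmod (G v), hG0, ← sub_modByMonic, ← Finset.sum_sub_distrib]
        have h3 := map_sum (modByMonicHom Pt) (fun j => (Q j - G v %ₘ P j) * E j) Finset.univ
        have h4 : ∀ g : k[X], modByMonicHom Pt g = g %ₘ Pt := fun g => rfl
        simp only [h4] at h3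
        rw [← h3]
        congr 1
        exact Finset.sum_congr rfl fun j _ => by ring
      rw [h2, hH]
      have h5 := modByMonic_add_div (G v) Pt
      linear_combination h5
    rw [h1, coeff_add]
    have h6 : av v ((∑ j, ((Q j - G v %ₘ P j) * E j) %ₘ Pt).coeff i) ≤ ε v / 2 := by
      rw [finsetSum_coeff]
      have h7 : ∀ s : Finset ι, av v (∑ j ∈ s, (((Q j - G v %ₘ P j) * E j) %ₘ Pt).coeff i) ≤
          s.card * (ε v / (2 * c)) := by
        intro s
        induction s using Finset.induction_on with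
        | empty => simp [av_zero]
        | insert a s ha ih =>
          rw [Finset.sum_insert ha, Finset.card_insert_of_notMem ha]
          have h8 := av_add v ((((Q a - G v %ₘ P a) * E a) %ₘ Pt).coeff i)
            (∑ j ∈ s, (((Q j - G v %ₘ P j) * E j) %ₘ Pt).coeff i)
          have h9 : av v ((((Q a - G v %ₘ P a) * E a) %ₘ Pt).coeff i) < ε v / (2 * c) := by
            refine hL2 v a hv (Q a - G v %ₘ P a) ?_ ?_ i
            · refine (natDegree_sub_le _ _).trans (max_le ?_ ?_)
              · exact natDegree_le_natDegree (hQd a).le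
              · exact natDegree_modByMonic_le _ (hF.mon a)
            · intro m
              exact (hQc a v hv m).trans_le (hε₂' (v, a) (Finset.mem_product.2
                ⟨hv, Finset.mem_univ a⟩))
          push_cast
          linarith
      refine (h7 Finset.univ).trans ?_
      rw [Finset.card_univ, mul_div_assoc', div_le_div_iff₀ (by positivity) (by positivity)]
      nlinarith
    have h7 : av v ((Pt * (H' - H v)).coeff i) < ε v / 2 := by
      have h8 := hM2 v hv (H' - H v) ?_ ?_ i
      · rw [sub_zero] at h8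
        exact h8
      · refine (natDegree_sub_le _ _).trans (max_le hH2.le (hHm v hv).2.le)
      · intro m
        rw [sub_zero]
        exact (hH3 v hv m).trans_le (hε₁' v hv)
    have h8 := av_add v ((∑ j, ((Q j - G v %ₘ P j) * E j) %ₘ Pt).coeff i)
      ((Pt * (H' - H v)).coeff i)
    linarith
  · intro v hvS hvp
    have hPI : Int v Pt := int_prod' _ _ fun j _ => (hI v hvS j).1
    refine int_add' (int_mod hPm hPI ?_) (int_mul' hPI (hH4 v hvS hvp))
    exact int_sum' _ _ fun j _ => int_mul' (hQi j v hvS hvp) (hI v hvS j).2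
  · intro j
    have h1 : P j ∣ Pt := Finset.dvd_prod_of_mem _ (Finset.mem_univ j)
    have h2 := modByMonic_add_div (∑ i, Q i * E i) Pt
    have h3 : G0 + Pt * H' - Q j = ((∑ i, Q i * E i) - Q j) +
        Pt * (H' - (∑ i, Q i * E i) /ₘ Pt) := by
      rw [hG0]
      linear_combination h2
    rw [h3]
    exact dvd_add (hsum Q j) (h1.mul_right _)

end Pool.Agent.H11.N6V
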