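import Pool.Agent.H34.N6V.Targets
import Pool.Agent.H12.QC.SPR

/-!
# MP_63b6b1_nt, row VSPF: a prime number which splits completely, any polynomial
-/

set_option autoImplicit false

open Polynomial NumberField IsDedekindDomain Pool.Agent.H32.QC Pool.Agent.H34.N6
open Pool.Agent.H13.DEV Pool.Agent.H34.N6V

namespace Pool.Agent.H11.N6V

/-- the norm of a place -/
noncomputable def nm {k : Type} [Field k] [NumberField k] (v : Pl k) : ℕ :=
  match v with
  | .inl v => Ideal.absNorm v.asIdeal
  | .inr _ => 0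

/-- large prime numbers are not in the finite places of a finite set -/
theorem off_of_lt {k : Type} [Field k] [NumberField k] (S : Finset (Pl k)) (p : ℕ)
    (hp : p.Prime) (hn : ∑ v ∈ S, nm v < p) (v : FPl k) (hv : Sum.inl v ∈ S) :
    (p : 𝓞 k) ∉ v.asIdeal := by
  intro hmem
  have h1 : nm (Sum.inl v) < p :=
    (Finset.single_le_sum (f := nm) (fun _ _ => Nat.zero_le _) hv).trans_lt hn
  have h2 : Ideal.absNorm v.asIdeal < p := h1
  have h3 : Ideal.absNorm v.asIdeal ≠ 0 := by
    rw [Ne, Ideal.absNorm_eq_zero_iff]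
    exact v.ne_bot
  have h4 : Nat.Coprime p (Ideal.absNorm v.asIdeal) :=
    (Nat.Prime.coprime_iff_not_dvd hp).2 fun hd => by
      have := Nat.le_of_dvd (Nat.pos_of_ne_zero h3) hd
      omega
  have h5 : IsCoprime ((p : ℕ) : ℤ) ((Ideal.absNorm v.asIdeal : ℕ) : ℤ) :=
    Nat.isCoprime_iff_coprime.2 h4
  obtain ⟨a, b, hab⟩ := h5.map (Int.castRingHom (𝓞 k))
  have h6 : (1 : 𝓞 k) ∈ v.asIdeal := by
    rw [← hab]
    refine Ideal.add_mem _ (Ideal.mul_mem_left _ _ ?_) (Ideal.mul_mem_left _ _ ?_)
    · simpa using hmem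
    · simpa using Ideal.absNorm_mem v.asIdeal
  exact (Ideal.ne_top_iff_one _).1 v.isPrime.ne_top h6

/-- an embedding of `E` in an algebraic closure of `F`, with values in `F` -/
theorem exists_emb {k E F : Type} [Field k] [Field E] [Field F] [Algebra k E]
    [Algebra.IsAlgebraic k E] [CharZero E]
    (hint : ∀ α : E, IsIntegral ℚ α) (j : ℚ →+* F)
    (h : ∀ α : E, ((minpoly ℚ α).map j).Splits) (ι : k →+* F) :
    ∃ g : E →+* AlgebraicClosure F,
      g.comp (algebraMap k E) = (algebraMap F (AlgebraicClosure F)).comp ι ∧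
      ∀ α, ∃ f : F, algebraMap F (AlgebraicClosure F) f = g α := by
  let _ : Algebra k (AlgebraicClosure F) := ((algebraMap F (AlgebraicClosure F)).comp ι).toAlgebra
  let φ : E →ₐ[k] AlgebraicClosure F := IsAlgClosed.lift
  refine ⟨φ.toRingHom, ?_, ?_⟩
  · ext x
    exact φ.commutes x
  · intro α
    have hm : ((minpoly ℚ α).map j) ≠ 0 :=
      Polynomial.map_ne_zero (minpoly.ne_zero (hint α))
    have hroot : ((minpoly ℚ α).map j).map (algebraMap F (AlgebraicClosure F)) |>.IsRoot
        (φ.toRingHom α) := by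
      rw [IsRoot, Polynomial.map_map, eval_map]
      have e : (algebraMap F (AlgebraicClosure F)).comp j =
          φ.toRingHom.comp (algebraMap ℚ E) := RingHom.ext_rat _ _
      rw [e, ← Polynomial.hom_eval₂]
      have : eval₂ (algebraMap ℚ E) α (minpoly ℚ α) = 0 := minpoly.aeval ℚ α
      rw [this, map_zero]
    obtain ⟨f, hf⟩ := (h α).mem_range_of_isRoot hm hroot
    exact ⟨f, hf⟩

theorem pf_SPF : T_SPF := by
  classical
  intro k _ _ P D S hP
  have hsq : ∀ r : AlgebraicClosure k, ∃ s : AlgebraicClosure k, s ^ 2 = aeval r D := fun r =>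
    IsAlgClosed.exists_pow_nat_eq (aeval r D) (n := 2) (by norm_num)
  choose s hs using hsq
  let R : Finset (AlgebraicClosure k) := (P.aroots (AlgebraicClosure k)).toFinset
  let E := IntermediateField.adjoin k ((R ∪ R.image s : Finset _) : Set (AlgebraicClosure k))
  have hfin : FiniteDimensional k E :=
    IntermediateField.finiteDimensional_adjoin fun x _ => Algebra.IsIntegral.isIntegral x
  have hNF : NumberField E := NumberField.of_module_finite k E
  have hR : ∀ r : AlgebraicClosure k, aeval r P = 0 → r ∈ E ∧ s r ∈ E := by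
    intro r hr
    have h1 : r ∈ R := by
      rw [Multiset.mem_toFinset, mem_aroots]
      exact ⟨hP, hr⟩
    exact ⟨IntermediateField.subset_adjoin _ _ (by
        rw [Finset.mem_coe, Finset.mem_union]; exact Or.inl h1),
      IntermediateField.subset_adjoin _ _ (by
        rw [Finset.mem_coe, Finset.mem_union]
        exact Or.inr (Finset.mem_image_of_mem _ h1))⟩
  have hspl : (P.map (algebraMap k E)).Splits := by
    refine Polynomial.Splits.of_splits_map (algebraMap E (AlgebraicClosure k))
      (IsAlgClosed.splits _) fun a ha => ?_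
    have ha' := isRoot_of_mem_roots ha
    rw [IsRoot, Polynomial.map_map, eval_map, ← IsScalarTower.algebraMap_eq] at ha'
    exact ⟨⟨a, (hR a ha').1⟩, rfl⟩
  obtain ⟨p, hp, hn, h⟩ := Pool.Agent.H12.QC.exists_splitPrime E (∑ v ∈ S, nm v)
  refine ⟨p, hp, off_of_lt S p hp hn, ?_⟩
  intro K _ _ _ w hw
  obtain ⟨g, hg, hF⟩ := exists_emb (F := w.adicCompletion K)
    (fun α => Algebra.IsIntegral.isIntegral (R := ℚ) α) _ (h K w hw) (kc k w)
  have key : ∀ x : AlgebraicClosure (w.adicCompletion K),
      eval₂ ((algebraMap (w.adicCompletion K) _).comp (kc k w)) x P = 0 →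
      ∃ r s : E, g r = x ∧ s ^ 2 = aeval r D := by
    intro x hx
    have h1 : (P.map (algebraMap k E)) ≠ 0 := Polynomial.map_ne_zero hP
    have h2 : ((P.map (algebraMap k E)).map g).IsRoot x := by
      rw [IsRoot, Polynomial.map_map, eval_map, hg]
      exact hx
    obtain ⟨r, hr⟩ := hspl.mem_range_of_isRoot h1 h2
    have h3 : aeval r P = 0 := by
      apply g.injective
      rw [map_zero, aeval_def, Polynomial.hom_eval₂, hg, hr]
      exact hx
    have h4 : aeval (r : AlgebraicClosure k) P = 0 := by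
      have h5 : aeval (algebraMap E (AlgebraicClosure k) r) P = 0 := by
        rw [Polynomial.aeval_algebraMap_apply, h3, map_zero]
      exact h5
    refine ⟨r, ⟨s r, (hR _ h4).2⟩, hr, ?_⟩
    apply (algebraMap E (AlgebraicClosure k)).injective
    rw [← Polynomial.aeval_algebraMap_apply, map_pow]
    exact hs _
  constructor
  · refine Polynomial.Splits.of_splits_map
      (algebraMap (w.adicCompletion K) (AlgebraicClosure (w.adicCompletion K)))
      (IsAlgClosed.splits _) fun a ha => ?_
    have ha' := isRoot_of_mem_roots ha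
    rw [IsRoot, Polynomial.map_map, eval_map] at ha'
    obtain ⟨r, -, hr, -⟩ := key a ha'
    obtain ⟨f, hf⟩ := hF r
    exact ⟨f, hf.trans hr⟩
  · intro e he
    obtain ⟨r, s0, hr, hs0⟩ := key (algebraMap _ _ e) (by
      rw [← Polynomial.hom_eval₂, he, map_zero])
    obtain ⟨f, hf⟩ := hF s0
    refine ⟨f, ?_⟩
    apply (algebraMap (w.adicCompletion K) (AlgebraicClosure (w.adicCompletion K))).injective
    rw [map_mul, hf, ← map_mul, ← pow_two, hs0, Polynomial.hom_eval₂, ← hg, ← hr]
    exact (Polynomial.hom_eval₂ D (algebraMap k E) g r).symm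

end Pool.Agent.H11.N6V
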